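import Pool.Agent.U543.DilK
import Pool.Agent.U543.DilPn
import Pool.Agent.N490.OW.KT
import Pool.Agent.N455.OW.PV
import Pool.Agent.W123.LR.Fin

/-!
# Primes just above the numbers `α 2 ^ n`, for almost every `α`

The question is whether `[2 ^ n, 2 ^ n + p_n]` contains a prime for all `n ≥ 1`, `p_n` the `n`-th prime.

Theorem. For all `μ < 1` and `κ > 0` there are `lam` and `ρ > 0` such that for almost every real `α > 0`
and all integers `b ≥ 2` the set of the `n` with the following three properties has lower logarithmic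
density at least `ρ`; here `x = α b ^ n` and `L = log (b ^ n) = n log b`.

* All `H` with `κ L ≤ H ≤ x` satisfy `μ H / L ≤ π(x, H) ≤ lam H / L`.
* There is a prime in `(x, x + κ L]`.
* The number of the primes in `(x, x + p_n]` is between `μ p_n / L` and `lam p_n / L`. (This is the number
  of the question, for `α b ^ n` instead of `2 ^ n`; `p_n / L` is asymptotic to `log n / log b`.)

So `2 ^ n` may be replaced by `α 2 ^ n`, for almost all `α`, if a positive proportion of the `n` is
considered. The length of the intervals can be the average distance of the primes, times any constant.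

Proof. The local density of the `m` for which all intervals `(m, m + H]`, `H ≥ K log m`, contain the
right number of primes up to a constant is bounded from below at almost all places and all scales
`m ^ (1 - c)` (helper762, `Pool.Agent.U762.GP.locdensK`; this rests on the density theorem for the
zeros of the zeta function and on second moments from the sieve). New is the transfer to the dilates
`α b ^ n` of one fixed sequence (`Pool.Agent.U543.Dil.samp_shift`): with `α = exp β` the indicator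
functions of the events at `n` are functions of `β + n log b`; by the law of large numbers of helper762
(`Pool.Agent.U762.GP.lln`) their logarithmic means are those of their short averages, for almost every
`β`, and the places where the short averages are small are rare.
-/

set_option autoImplicit false

open Filter Topology MeasureTheory

namespace Pool.Agent.Results.MP_78b39f_nt.DilatedPowers

/-- the number of the primes `q` with `x < q ≤ x + H` -/
noncomputable def primesIn (x H : ℝ) : ℕ :=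
  ((Finset.Ioc ⌊x⌋₊ ⌊x + H⌋₊).filter Nat.Prime).card

/-- the `n`-th prime, `p 1 = 2` -/
noncomputable def p (n : ℕ) : ℕ := Nat.nth Nat.Prime (n - 1)

/-- The properties of the exponent `n`, for `x = α b ^ n`. -/
structure Good (μ lam κ α : ℝ) (b n : ℕ) : Prop where
  /-- the number of primes in `(x, x + H]`, for all `H ≥ κ log (b ^ n)` at once -/
  all : ∀ H : ℝ, κ * Real.log ((b : ℝ) ^ n) ≤ H → H ≤ α * b ^ n →
    μ * H / Real.log ((b : ℝ) ^ n) ≤ primesIn (α * b ^ n) H ∧
    primesIn (α * b ^ n) H ≤ lam * H / Real.log ((b : ℝ) ^ n)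
  /-- the next prime -/
  next : ∃ q : ℕ, q.Prime ∧ α * (b : ℝ) ^ n < q ∧ q ≤ α * (b : ℝ) ^ n + κ * Real.log ((b : ℝ) ^ n)
  /-- the number of primes in `(x, x + p_n]` -/
  pn : μ * p n / Real.log ((b : ℝ) ^ n) ≤ primesIn (α * b ^ n) (p n) ∧
    primesIn (α * b ^ n) (p n) ≤ lam * p n / Real.log ((b : ℝ) ^ n)

lemma primesIn_eq {x H : ℝ} (hH : 0 ≤ H) :
    (primesIn x H : ℝ) = Nat.primeCounting ⌊x + H⌋₊ - Nat.primeCounting ⌊x⌋₊ := by
  have hab : ⌊x⌋₊ ≤ ⌊x + H⌋₊ := Nat.floor_mono (by linarith)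
  exact Pool.Agent.U762.GP.pcn_sub hab

/-- the weights `1 / n` at the points `n log b` -/
theorem ws_log {b : ℕ} (hb : 2 ≤ b) :
    Pool.Agent.U762.GP.WS (fun n => max 1 ((n : ℝ) * Real.log b)) (fun n => 1 / (n : ℝ))
      (2 + Real.log b) := by
  classical
  have hbr : (2 : ℝ) ≤ b := by exact_mod_cast hb
  have hL : 0.69 < Real.log b := by
    have h1 := Real.log_two_gt_d9
    have h2 : Real.log 2 ≤ Real.log b := Real.log_le_log (by norm_num) hbr
    linarith
  have hL0 : 0 < Real.log b := by linarith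
  refine ⟨fun n => le_max_left _ _, fun n => by positivity, fun t ht F hF => ?_⟩
  rw [← Finset.sum_filter_add_sum_filter_not F (fun n => n < 2)]
  have h1 : ∑ n ∈ F.filter (fun n => n < 2), 1 / (n : ℝ) ≤ 1 := by
    calc ∑ n ∈ F.filter (fun n => n < 2), 1 / (n : ℝ) ≤ ∑ n ∈ Finset.range 2, 1 / (n : ℝ) := by
          apply Finset.sum_le_sum_of_subset_of_nonneg
          · intro n hn
            rw [Finset.mem_filter] at hn
            exact Finset.mem_range.2 hn.2
          · intro n _ _
            positivity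
      _ = 1 := by
          rw [Finset.sum_range_succ, Finset.sum_range_one]
          norm_num
  have h2 : ∑ n ∈ F.filter (fun n => ¬ n < 2), 1 / (n : ℝ) ≤ 1 + Real.log b := by
    have hmem : ∀ n ∈ F.filter (fun n => ¬ n < 2), t / Real.log b ≤ n ∧
        (n : ℝ) ≤ 2 * (t / Real.log b) := by
      intro n hn
      rw [Finset.mem_filter, not_lt] at hn
      have h3 : (2 : ℝ) ≤ n := by exact_mod_cast hn.2
      have h4 : 1 ≤ (n : ℝ) * Real.log b := by nlinarith
      obtain ⟨h5, h6⟩ := hF n hn.1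
      simp only [max_eq_right h4] at h5 h6
      constructor
      · rwa [div_le_iff₀ hL0]
      · rw [← mul_div_assoc, le_div_iff₀ hL0]
        exact h6
    obtain ⟨u, hu⟩ : ∃ u : ℝ, u = t / Real.log b := ⟨_, rfl⟩
    have hu0 : 0 < u := by rw [hu]; positivity
    rw [← hu] at hmem
    have hsub : F.filter (fun n => ¬ n < 2) ⊆ Finset.Icc ⌈u⌉₊ ⌊2 * u⌋₊ := by
      intro n hn
      rw [Finset.mem_Icc]
      exact ⟨Nat.ceil_le.2 (hmem n hn).1, Nat.le_floor (hmem n hn).2⟩
    have hcard : ((F.filter (fun n => ¬ n < 2)).card : ℝ) ≤ u + 1 := by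
      have h3 : (F.filter (fun n => ¬ n < 2)).card ≤ ⌊2 * u⌋₊ + 1 - ⌈u⌉₊ := by
        have := Finset.card_le_card hsub
        rwa [Nat.card_Icc] at this
      have h4 : (⌊2 * u⌋₊ : ℝ) ≤ 2 * u := Nat.floor_le (by positivity)
      have h5 : u ≤ (⌈u⌉₊ : ℝ) := Nat.le_ceil u
      have h6 : ((F.filter (fun n => ¬ n < 2)).card : ℝ) ≤
          ((⌊2 * u⌋₊ + 1 - ⌈u⌉₊ : ℕ) : ℝ) := by exact_mod_cast h3
      refine h6.trans ?_
      rcases le_total ⌈u⌉₊ (⌊2 * u⌋₊ + 1) with h7 | h7
      · rw [Nat.cast_sub h7]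
        push_cast
        linarith
      · rw [Nat.sub_eq_zero_of_le h7]
        push_cast
        linarith
    calc ∑ n ∈ F.filter (fun n => ¬ n < 2), 1 / (n : ℝ)
        ≤ ∑ _n ∈ F.filter (fun n => ¬ n < 2), 1 / u := by
          apply Finset.sum_le_sum
          intro n hn
          exact one_div_le_one_div_of_le hu0 (hmem n hn).1
      _ = (F.filter (fun n => ¬ n < 2)).card * (1 / u) := by
          rw [Finset.sum_const, nsmul_eq_mul]
      _ ≤ (u + 1) * (1 / u) := mul_le_mul_of_nonneg_right hcard (by positivity)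
      _ = 1 + Real.log b / t := by
          have ht0 : 0 < t := by linarith
          rw [hu]
          field_simp
      _ ≤ 1 + Real.log b := by
          have : Real.log b / t ≤ Real.log b := div_le_self hL0.le ht
          linarith
  linarith

/-- comparison of the properties for large `n` -/
theorem good_of {μ μ' lam κ α : ℝ} {b : ℕ} (hb : 2 ≤ b) (hα : 0 < α) (hκ : 0 < κ)
    (hμ0 : 0 < μ) (hμ : μ < μ') (hlam : 0 < lam) : ∀ᶠ n : ℕ in atTop,
      Pool.Agent.U762.GP.GoodK μ' lam (κ / 2) (α * (b : ℝ) ^ n) →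
      Good μ (2 * lam) κ α b n := by
  have hbr : (2 : ℝ) ≤ b := by exact_mod_cast hb
  have hL0 : 0 < Real.log b := Real.log_pos (by linarith)
  have hlin : Tendsto (fun n : ℕ => (n : ℝ) * Real.log b) atTop atTop :=
    tendsto_natCast_atTop_atTop.atTop_mul_const hL0
  have hpow : Tendsto (fun n : ℕ => α * (b : ℝ) ^ n) atTop atTop :=
    (tendsto_pow_atTop_atTop_of_one_lt (by linarith)).const_mul_atTop hα
  obtain ⟨A, hA⟩ : ∃ A : ℝ, A = |Real.log α| := ⟨_, rfl⟩
  have hA0 : 0 ≤ A := by rw [hA]; exact abs_nonneg _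
  have hev : ∀ᶠ n : ℕ in atTop, κ * ((n : ℝ) * Real.log b) ≤ α * (b : ℝ) ^ n := by
    have h3 : Tendsto (fun n : ℕ => ((n : ℝ)) ^ 1 * (1 / 2 : ℝ) ^ n) atTop (𝓝 0) :=
      tendsto_pow_const_mul_const_pow_of_lt_one 1 (by norm_num) (by norm_num)
    have h4 := (tendsto_order.1 h3).2 (α / (κ * Real.log b)) (by positivity)
    filter_upwards [h4] with n hn
    rw [pow_one, lt_div_iff₀ (by positivity)] at hn
    have h5 : (1 / 2 : ℝ) ^ n * 2 ^ n = 1 := by
      rw [← mul_pow]; norm_num
    have h6 : (2 : ℝ) ^ n ≤ (b : ℝ) ^ n := pow_le_pow_left₀ (by norm_num) hbr n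
    calc κ * ((n : ℝ) * Real.log b) = (n : ℝ) * (1 / 2 : ℝ) ^ n * (κ * Real.log b) * 2 ^ n := by
          calc κ * ((n : ℝ) * Real.log b) = (n : ℝ) * (κ * Real.log b) * 1 := by ring
            _ = (n : ℝ) * (κ * Real.log b) * ((1 / 2 : ℝ) ^ n * 2 ^ n) := by rw [h5]
            _ = _ := by ring
      _ ≤ α * 2 ^ n := mul_le_mul_of_nonneg_right hn.le (by positivity)
      _ ≤ α * (b : ℝ) ^ n := mul_le_mul_of_nonneg_left h6 hα.le
  filter_upwards [hlin.eventually_ge_atTop (2 * A + 1), hlin.eventually_ge_atTop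
      (μ * A / (μ' - μ)), hev, Pool.Agent.U543.Dil.pn_ge (κ * Real.log b),
    Pool.Agent.U543.Dil.pn_le hα, hpow.eventually_ge_atTop 2] with n h1 h2 h3 h4 h5 h6
  intro hg
  obtain ⟨x, hx⟩ : ∃ x : ℝ, x = α * (b : ℝ) ^ n := ⟨_, rfl⟩
  obtain ⟨l, hl⟩ : ∃ l : ℝ, l = (n : ℝ) * Real.log b := ⟨_, rfl⟩
  have hlb : Real.log ((b : ℝ) ^ n) = l := by rw [Real.log_pow, hl]
  have hlx : Real.log x = Real.log α + l := by
    rw [hx, Real.log_mul hα.ne' (by positivity), hlb]
  rw [← hl] at h1 h2 h3
  rw [← hx] at h3 h6 hg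
  have hAl := abs_le.1 (le_of_eq hA.symm)
  have hl0 : 0 < l := by linarith
  have hlx1 : l / 2 ≤ Real.log x := by rw [hlx]; linarith
  have hlx2 : Real.log x ≤ 2 * l := by rw [hlx]; linarith
  have hlx0 : 0 < Real.log x := by linarith
  have hlx3 : μ * Real.log x ≤ μ' * l := by
    rw [div_le_iff₀ (by linarith)] at h2
    have h7 : μ * Real.log α ≤ μ * A := mul_le_mul_of_nonneg_left hAl.2 hμ0.le
    rw [hlx]
    linarith
  have hall : ∀ H : ℝ, κ * l ≤ H → H ≤ x →
      μ * H / l ≤ primesIn x H ∧ primesIn x H ≤ 2 * lam * H / l := by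
    intro H a1 a2
    have hH0 : 0 ≤ H := le_trans (by positivity) a1
    obtain ⟨a3, a4⟩ := hg H (by
      refine le_trans ?_ a1
      calc κ / 2 * Real.log x ≤ κ / 2 * (2 * l) := mul_le_mul_of_nonneg_left hlx2 (by positivity)
        _ = κ * l := by ring) a2
    rw [primesIn_eq hH0]
    constructor
    · refine le_trans ?_ a3
      rw [div_le_iff₀ hl0]
      calc μ * H = μ * Real.log x * (H / Real.log x) := by field_simp
        _ ≤ μ' * l * (H / Real.log x) := mul_le_mul_of_nonneg_right hlx3 (by positivity)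
        _ = μ' * (H / Real.log x) * l := by ring
    · refine a4.trans ?_
      rw [le_div_iff₀ hl0]
      have h8 : l / Real.log x ≤ 2 := by
        rw [div_le_iff₀ hlx0]; linarith
      calc lam * (H / Real.log x) * l = lam * H * (l / Real.log x) := by ring
        _ ≤ lam * H * 2 := mul_le_mul_of_nonneg_left h8 (by positivity)
        _ = 2 * lam * H := by ring
  have hpnx : (p n : ℝ) ≤ x := by
    have h7 : (2 : ℝ) ^ n ≤ (b : ℝ) ^ n := pow_le_pow_left₀ (by norm_num) hbr n
    rw [hx]
    exact le_trans h5 (mul_le_mul_of_nonneg_left h7 hα.le)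
  have hpnl : κ * l ≤ (p n : ℝ) := by
    rw [hl]
    refine le_trans (le_of_eq (by ring)) h4
  refine ⟨?_, ?_, ?_⟩
  · intro H a1 a2
    rw [hlb] at a1 ⊢
    rw [← hx] at a2 ⊢
    exact hall H a1 a2
  · rw [hlb, ← hx]
    have a1 := (hall (κ * l) le_rfl h3).1
    have a2 : (0 : ℝ) < primesIn x (κ * l) := lt_of_lt_of_le (by positivity) a1
    have a3 : 0 < primesIn x (κ * l) := by exact_mod_cast a2
    obtain ⟨q, hq⟩ := Finset.card_pos.1 a3
    rw [Finset.mem_filter, Finset.mem_Ioc] at hq
    refine ⟨q, hq.2, ?_, ?_⟩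
    · exact (Nat.floor_lt (by linarith)).1 hq.1.1
    · exact (Nat.le_floor_iff (by positivity)).1 hq.1.2
  · rw [hlb, ← hx]
    exact hall (p n) hpnl hpnx

open Classical in
/-- **Primes just above `α b ^ n`.** For all `0 < μ < 1` and `κ > 0` there are `lam, ρ > 0` such that for
almost every real `α > 0` and all integers `b ≥ 2` the set of the exponents `n ≥ 1` with the three
properties in `Good` has lower logarithmic density at least `ρ`. -/
theorem result {μ κ : ℝ} (hμ0 : 0 < μ) (hμ1 : μ < 1) (hκ : 0 < κ) :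
    ∃ lam ρ : ℝ, 0 < lam ∧ 0 < ρ ∧ ∀ᵐ α ∂(volume.restrict (Set.Ioi (0 : ℝ))),
      ∀ b : ℕ, 2 ≤ b → ∀ᶠ N : ℕ in atTop,
        ρ * ∑ n ∈ Finset.Icc 1 N, 1 / (n : ℝ) ≤
          ∑ n ∈ (Finset.Icc 1 N).filter (fun n => Good μ lam κ α b n), 1 / (n : ℝ) := by
  have hKT : Pool.Agent.U762.GP.KT4 := by
    obtain ⟨c0, Z0, h1, h2, h3⟩ := Pool.Agent.N490.OW.kt Pool.Agent.N455.OW.pv 4
    exact ⟨c0, Z0, h1, h2, h3⟩
  obtain ⟨c, hc, hc1, hbig⟩ := Pool.Agent.U762.GP.bigD hKT
  obtain ⟨C0, hC0, u0, hSM⟩ := Pool.Agent.W123.LR.second_moment_local (1 / 2) (by norm_num)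
  obtain ⟨μ', hμμ, hμ'1⟩ := exists_between hμ1
  obtain ⟨lam, ρ, hlam, hρ, h⟩ := Pool.Agent.U543.Dil.dilK hc hc1 hbig (by linarith : 0 ≤ C0)
    (u0 := u0) hSM (hμ0.trans hμμ) hμ'1 (half_pos hκ)
  refine ⟨2 * lam, ρ / 2, by linarith, half_pos hρ, ?_⟩
  have hdiv : Tendsto (fun N => ∑ n ∈ Finset.range N, 1 / (n : ℝ)) atTop atTop :=
    (not_summable_iff_tendsto_nat_atTop_of_nonneg (fun n => by positivity)).1
      Real.not_summable_one_div_natCast
  have hae : ∀ᵐ α ∂(volume.restrict (Set.Ioi (0 : ℝ))), ∀ b : ℕ, 2 ≤ b → ∀ᶠ N : ℕ in atTop,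
      ρ * ∑ n ∈ Finset.range N, 1 / (n : ℝ) ≤
        ∑ n ∈ Finset.range N, if Pool.Agent.U762.GP.GoodK μ' lam (κ / 2)
          (α * Real.exp (max 1 ((n : ℝ) * Real.log b))) then 1 / (n : ℝ) else 0 := by
    rw [ae_all_iff]
    intro b
    by_cases hb : 2 ≤ b
    · have hbr : (2 : ℝ) ≤ b := by exact_mod_cast hb
      have hL0 : 0 < Real.log b := Real.log_pos (by linarith)
      have h1 := h _ _ _ (ws_log hb) (tendsto_atTop_mono (fun n => le_max_right _ _)
        (tendsto_natCast_atTop_atTop.atTop_mul_const hL0)) hdiv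
      filter_upwards [h1] with α hα _
      exact hα
    · exact Filter.Eventually.of_forall fun α hb' => absurd hb' hb
  filter_upwards [hae, ae_restrict_mem measurableSet_Ioi] with α hα hα0
  intro b hb
  have hbr : (2 : ℝ) ≤ b := by exact_mod_cast hb
  have hL : 0.69 < Real.log b := by
    have h1 := Real.log_two_gt_d9
    have h2 : Real.log 2 ≤ Real.log b := Real.log_le_log (by norm_num) hbr
    linarith
  obtain ⟨n0, hn0⟩ := eventually_atTop.1
    ((good_of hb hα0 hκ hμ0 hμμ hlam).and (eventually_ge_atTop 2))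
  have hbig2 : ∀ᶠ N : ℕ in atTop, (∑ n ∈ Finset.range n0, 1 / (n : ℝ)) / (ρ / 2) ≤
      ∑ n ∈ Finset.range N, 1 / (n : ℝ) := hdiv.eventually_ge_atTop _
  have h3 : ∀ᶠ N : ℕ in atTop, ρ / 2 * ∑ n ∈ Finset.range N, 1 / (n : ℝ) ≤
      ∑ n ∈ (Finset.range N).filter (fun n => Good μ (2 * lam) κ α b n), 1 / (n : ℝ) := by
    filter_upwards [hα b hb, hbig2] with N hN hN2
    rw [div_le_iff₀ (by positivity)] at hN2
    have hpt : ∀ n : ℕ, (if Pool.Agent.U762.GP.GoodK μ' lam (κ / 2)
          (α * Real.exp (max 1 ((n : ℝ) * Real.log b))) then 1 / (n : ℝ) else 0) ≤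
        (if Good μ (2 * lam) κ α b n then 1 / (n : ℝ) else 0) +
          (if n < n0 then 1 / (n : ℝ) else 0) := by
      intro n
      have hw : 0 ≤ 1 / (n : ℝ) := by positivity
      by_cases hn : n < n0
      · rw [if_pos hn]
        split_ifs <;> linarith
      · rw [if_neg hn, add_zero]
        push Not at hn
        obtain ⟨h4, h5⟩ := hn0 n hn
        have h5r : (2 : ℝ) ≤ n := by exact_mod_cast h5
        have h6 : 1 ≤ (n : ℝ) * Real.log b := by nlinarith
        have h7 : Real.exp (max 1 ((n : ℝ) * Real.log b)) = (b : ℝ) ^ n := by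
          rw [max_eq_right h6, mul_comm, Real.exp_mul, Real.exp_log (by linarith),
            Real.rpow_natCast]
        rw [h7]
        by_cases hg : Pool.Agent.U762.GP.GoodK μ' lam (κ / 2) (α * (b : ℝ) ^ n)
        · rw [if_pos hg, if_pos (h4 hg)]
        · rw [if_neg hg]
          split_ifs
          · exact hw
          · exact le_rfl
    have hsum := Finset.sum_le_sum (fun n (_ : n ∈ Finset.range N) => hpt n)
    rw [Finset.sum_add_distrib] at hsum
    have hlast : ∑ n ∈ Finset.range N, (if n < n0 then 1 / (n : ℝ) else 0) ≤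
        ∑ n ∈ Finset.range n0, 1 / (n : ℝ) := by
      rw [← Finset.sum_filter]
      apply Finset.sum_le_sum_of_subset_of_nonneg
      · intro n hn
        rw [Finset.mem_filter] at hn
        exact Finset.mem_range.2 hn.2
      · intro n _ _
        positivity
    rw [Finset.sum_filter]
    linarith
  obtain ⟨N0, hN0⟩ := eventually_atTop.1 h3
  filter_upwards [eventually_ge_atTop N0] with N hN
  have h8 := hN0 (N + 1) (by omega)
  have hrange : Finset.range (N + 1) = insert 0 (Finset.Icc 1 N) := by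
    ext n
    rw [Finset.mem_range, Finset.mem_insert, Finset.mem_Icc]
    omega
  rw [Finset.sum_filter, hrange, Finset.sum_insert (by simp), Finset.sum_insert (by simp)] at h8
  rw [Finset.sum_filter]
  have h9 : (if Good μ (2 * lam) κ α b 0 then 1 / ((0 : ℕ) : ℝ) else 0) = 0 := by
    split_ifs <;> simp
  rw [h9] at h8
  simpa using h8

end Pool.Agent.Results.MP_78b39f_nt.DilatedPowers
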