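import Mathlib
import Pool.Agent.U53.PW.Main
import Pool.Agent.U53.PW.Num

set_option autoImplicit false

/-!
# Chosen numbers just above powers of two in random models of the primes: the exact set of limit points

The problem asks whether `a(n)`, the number of primes in `[2 ^ n, 2 ^ n + p_n]`, is positive for all `n`. Here the
primes are replaced by the random sets of Cramér and of Granville (with a sieve `T`), and the question is answered on
the scale `log n`, which is the size of the mean value of `a(n)`: for every base `b ≥ 2` and every `C > 0` the set of the limit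
points of `a(n) / log n` is almost surely the interval of the `β ≥ 0` with
`λ - β + β log (β / λ) ≤ 1`, where `λ = C / log b`. So the constant `1` in `C = 1` may be replaced by every `C > log 2`, but
by no `C < log 2`.

Proof: for `t = log (β / λ)` the exponential moments of the counts in the windows are computed with the fundamental
lemma of the sieve (library `Pool.Agent.U839.Sv`), the probability of a window `|a(n) - β log n| ≤ δ log n` is bounded from
below by a comparison of the exponential moments at three points, and the two Borel–Cantelli lemmas are applied.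
-/

open MeasureTheory ProbabilityTheory Filter Topology

namespace Pool.Agent.Results.MP_78b39f_nt.LimitPointsInRandomModels

open Classical in
/-- `∏_{p ≤ T(m)} (1 - 1/p)⁻¹` if `m` has no prime factor `p ≤ T(m)`, and `0` otherwise. -/
noncomputable def weight (T : ℕ → ℕ) (m : ℕ) : ℝ :=
  if ∀ p, p.Prime → p ≤ T m → ¬ p ∣ m then
    ∏ p ∈ (Finset.Icc 1 (T m)).filter Nat.Prime, (1 - 1 / (p : ℝ))⁻¹ else 0

/-- The random model: `E m` is the event that `m` is chosen; these events are independent and have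
probability `weight T m / log m` (if this is at most `1`, which is the case for all large `m` here). -/
structure Model {Ω : Type*} [MeasurableSpace Ω] (μ : Measure Ω) (T : ℕ → ℕ) (E : ℕ → Set Ω) : Prop where
  meas : ∀ m, MeasurableSet (E m)
  indep : iIndepSet E μ
  law : ∀ m : ℕ, μ.real (E m) = min 1 (weight T m / Real.log m)

/-- `T` is nondecreasing and smaller than every power of `log n`. -/
def Small (T : ℕ → ℕ) : Prop :=
  Monotone T ∧ ∀ θ : ℝ, 0 < θ → ∀ᶠ n : ℕ in atTop, (T n : ℝ) ≤ (Real.log n) ^ θ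

/-- the `n`-th prime `p_n`, `p_1 = 2` -/
noncomputable def p (n : ℕ) : ℕ := Nat.nth Nat.Prime (n - 1)

/-- the number of the elements `m` of `Q` with `b ^ n ≤ m ≤ b ^ n + C p_n`; for `b = 2`, `C = 1` the function `a(n)` of the
problem, with the set `Q` in place of the primes -/
noncomputable def a (Q : Set ℕ) (b : ℕ) (C : ℝ) (n : ℕ) : ℕ :=
  {m : ℕ | m ∈ Q ∧ b ^ n ≤ m ∧ (m : ℝ) ≤ (b : ℝ) ^ n + C * p n}.ncard

/-- `λ - β + β log (β / λ)` (which is `λ` for `β = 0`) -/
noncomputable def rate (lam β : ℝ) : ℝ := lam - β + β * Real.log (β / lam)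

theorem small_zero : Small (fun _ => 0) := by
  refine ⟨monotone_const, fun θ _ => ?_⟩
  filter_upwards [eventually_ge_atTop 1] with n hn
  push_cast
  exact Real.rpow_nonneg (Real.log_natCast_nonneg n) θ

open Pool.Agent.U53.PW (cnt Ib Reg)

theorem a_eq {Ω : Type*} (E : ℕ → Set Ω) (ω : Ω) (b : ℕ) (C : ℝ) (hC : 0 < C) (n : ℕ) :
    (a {m | ω ∈ E m} b C n : ℝ) = cnt E (Ib b C n) ω := by
  classical
  have h1 : {m : ℕ | m ∈ {m | ω ∈ E m} ∧ b ^ n ≤ m ∧ (m : ℝ) ≤ (b : ℝ) ^ n + C * p n} =
      (((Ib b C n).filter (fun m => ω ∈ E m) : Finset ℕ) : Set ℕ) := by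
    ext m
    rw [Finset.coe_filter]
    constructor
    · rintro ⟨h2, h3⟩
      exact ⟨(Pool.Agent.U53.PW.mem_Ib hC).2 h3, h2⟩
    · rintro ⟨h2, h3⟩
      exact ⟨h3, (Pool.Agent.U53.PW.mem_Ib hC).1 h2⟩
  unfold a
  rw [h1, Set.ncard_coe_finset]
  unfold Pool.Agent.U53.PW.cnt Pool.Agent.U53.PW.ind
  rw [Finset.card_filter]
  push_cast
  apply Finset.sum_congr rfl
  intro m _
  by_cases h : ω ∈ E m
  · rw [if_pos h, Set.indicator_of_mem h]
  · rw [if_neg h, Set.indicator_of_notMem h]

theorem reg {Ω : Type*} [MeasurableSpace Ω] {μ : Measure Ω} {T : ℕ → ℕ} (hT : Small T) {E : ℕ → Set Ω}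
    (hE : Model μ T E) (b : ℕ) (C : ℝ) (hb : 2 ≤ b) (hC : 0 < C) :
    Reg E μ (Ib b C) (C / Real.log b) where
  meas := hE.meas
  indep := hE.indep
  disj := Pool.Agent.U53.PW.Ib_disj b hb C hC
  sum := fun ε hε => Pool.Agent.U53.PW.q_sum T hT.1 hT.2 (fun m => μ.real (E m)) hE.law b hb C hC ε hε
  small := fun η hη => Pool.Agent.U53.PW.q_small T hT.2 (fun m => μ.real (E m)) hE.law b hb C η hη

theorem rate_between (β : ℝ) (h1 : 1 / 7 ≤ β) (h2 : β ≤ 17 / 5) : rate (1 / Real.log 2) β ≤ 1 := by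
  have hl := Pool.Agent.U53.PW.inv_log_two
  obtain ⟨lam, hlam⟩ : ∃ lam, lam = 1 / Real.log 2 := ⟨_, rfl⟩
  have hc := Pool.Agent.U53.PW.rate_c
  have hd := Pool.Agent.U53.PW.rate_d
  rw [← hlam] at hl hc hd ⊢
  have hl0 : 0 < lam := by linarith [hl.1]
  have key : ∀ x : ℝ, 0 ≤ x → Pool.Agent.U53.PW.rate lam x ≤ 1 → ∀ s : ℝ, 0 ≤ s → s ≤ 1 →
      β = (1 - s) * x + s * lam → rate lam β ≤ 1 := by
    intro x hx hr s hs0 hs1 hβ
    have h3 := Pool.Agent.U53.PW.rate_convex lam hl0 x s hx hs0 hs1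
    rw [← hβ] at h3
    refine h3.trans ?_
    nlinarith
  rcases le_total β lam with h | h
  · have hd0 : 0 < lam - 1 / 7 := by linarith [hl.1]
    refine key (1 / 7) (by norm_num) hc ((β - 1 / 7) / (lam - 1 / 7)) (div_nonneg (by linarith) hd0.le) ?_ ?_
    · rw [div_le_one hd0]
      linarith
    · have e := div_mul_cancel₀ (β - 1 / 7) hd0.ne'
      linear_combination -e
  · have hd0 : 0 < 17 / 5 - lam := by linarith [hl.2]
    refine key (17 / 5) (by norm_num) hd ((17 / 5 - β) / (17 / 5 - lam)) (div_nonneg (by linarith) hd0.le) ?_ ?_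
    · rw [div_le_one hd0]
      linarith
    · have e := div_mul_cancel₀ (17 / 5 - β) hd0.ne'
      linear_combination e

/-- **Chosen numbers just above powers of two in random models of the primes.** Let `T` be nondecreasing and smaller than
every power of `log n` (for instance `T = 0`, Cramér's model), and let `E` be the random model with the sieve `T`.
(1) For all `b ≥ 2`, `C > 0` almost surely the set of the limit points of `a(n) / log n` is the set of the `β ≥ 0` with
`λ - β + β log (β / λ) ≤ 1`, `λ = C / log b`. (2) If `C < log b`, then almost surely `a(n) = 0` infinitely often. (3) If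
`C > log b`, then there is `c > 0` with `a(n) > c log n` for all large `n` almost surely. (4) For `b = 2` and `C = 1` almost
surely `1 / 8 log n < a(n) < 7 / 2 log n` for all large `n`, and all numbers of `[1 / 7, 17 / 5]` are limit points. -/
theorem result {Ω : Type*} [MeasurableSpace Ω] (μ : Measure Ω) [IsProbabilityMeasure μ] (T : ℕ → ℕ)
    (hT : Small T) (E : ℕ → Set Ω) (hE : Model μ T E) :
    Small (fun _ => 0) ∧
    (∀ (b : ℕ) (C : ℝ), 2 ≤ b → 0 < C →
      (∀ᵐ ω ∂μ, ∀ β : ℝ, MapClusterPt β atTop (fun n : ℕ => (a {m | ω ∈ E m} b C n : ℝ) / Real.log n) ↔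
        0 ≤ β ∧ rate (C / Real.log b) β ≤ 1) ∧
      (C < Real.log b → ∀ᵐ ω ∂μ, ∃ᶠ n : ℕ in atTop, a {m | ω ∈ E m} b C n = 0) ∧
      (Real.log b < C → ∃ c : ℝ, 0 < c ∧
        ∀ᵐ ω ∂μ, ∀ᶠ n : ℕ in atTop, c * Real.log n < (a {m | ω ∈ E m} b C n : ℝ))) ∧
    (∀ᵐ ω ∂μ, (∀ᶠ n : ℕ in atTop, 1 / 8 * Real.log n < (a {m | ω ∈ E m} 2 1 n : ℝ) ∧
        (a {m | ω ∈ E m} 2 1 n : ℝ) < 7 / 2 * Real.log n) ∧
      ∀ β : ℝ, 1 / 7 ≤ β → β ≤ 17 / 5 →
        MapClusterPt β atTop (fun n : ℕ => (a {m | ω ∈ E m} 2 1 n : ℝ) / Real.log n)) := by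
  have hmain : ∀ (b : ℕ) (C : ℝ), 2 ≤ b → 0 < C →
      ∀ᵐ ω ∂μ, ∀ β : ℝ, MapClusterPt β atTop (fun n : ℕ => (a {m | ω ∈ E m} b C n : ℝ) / Real.log n) ↔
        0 ≤ β ∧ rate (C / Real.log b) β ≤ 1 := by
    intro b C hb hC
    have hlb : 0 < Real.log b := Real.log_pos (by exact_mod_cast (by omega : 1 < b))
    filter_upwards [Pool.Agent.U53.PW.cluster (reg hT hE b C hb hC) (by positivity)] with ω hω β
    have h1 : (fun n : ℕ => (a {m | ω ∈ E m} b C n : ℝ) / Real.log n) =
        fun n : ℕ => cnt E (Ib b C n) ω / Real.log n := by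
      funext n
      rw [a_eq E ω b C hC n]
    rw [h1]
    exact hω β
  refine ⟨small_zero, fun b C hb hC => ⟨hmain b C hb hC, fun hCb => ?_, fun hCb => ?_⟩, ?_⟩
  · have hlb : 0 < Real.log b := Real.log_pos (by exact_mod_cast (by omega : 1 < b))
    filter_upwards [Pool.Agent.U53.PW.voids (reg hT hE b C hb hC) (by positivity)
      (by rwa [div_lt_one hlb])] with ω hω
    refine hω.mono fun n hn => ?_
    have h1 : (a {m | ω ∈ E m} b C n : ℝ) = 0 := by
      rw [a_eq E ω b C hC n]
      unfold Pool.Agent.U53.PW.cnt Pool.Agent.U53.PW.ind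
      exact Finset.sum_eq_zero fun m hm => Set.indicator_of_notMem (hn m hm) _
    exact_mod_cast h1
  · have hlb : 0 < Real.log b := Real.log_pos (by exact_mod_cast (by omega : 1 < b))
    obtain ⟨lam, hlam⟩ : ∃ lam, lam = C / Real.log b := ⟨_, rfl⟩
    have hl1 : 1 < lam := by
      rw [hlam, one_lt_div hlb]
      exact hCb
    have hl0 : 0 < lam := by linarith
    have h0 : 1 < Pool.Agent.U53.PW.rate lam 0 := by
      rw [Pool.Agent.U53.PW.rate_eq lam hl0]
      simpa using hl1
    have hop : ∀ᶠ x in 𝓝 (0 : ℝ), 1 < Pool.Agent.U53.PW.rate lam x :=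
      (Pool.Agent.U53.PW.rate_cont lam hl0).continuousAt.eventually (lt_mem_nhds h0)
    obtain ⟨r, hr0, hball⟩ := Metric.eventually_nhds_iff.1 hop
    have hm0 : 0 < min r lam := lt_min hr0 hl0
    have hreg := reg hT hE b C hb hC
    rw [← hlam] at hreg
    refine ⟨min r lam / 2, by linarith, ?_⟩
    have h2 : min r lam / 2 < lam := by linarith [min_le_right r lam]
    have h3 : min r lam / 2 < r := by linarith [min_le_left r lam]
    filter_upwards [Pool.Agent.U53.PW.below hreg (min r lam / 2) (by linarith) h2 (hball (by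
      rw [Real.dist_eq, sub_zero, abs_of_pos (by linarith)]
      exact h3))] with ω hω
    filter_upwards [hω] with n hn
    rw [a_eq E ω b C hC n]
    exact hn
  · have hreg := reg hT hE 2 1 le_rfl one_pos
    have hl := Pool.Agent.U53.PW.inv_log_two
    have e2 : (1 : ℝ) / Real.log ((2 : ℕ) : ℝ) = 1 / Real.log 2 := by norm_num
    rw [e2] at hreg
    have hc := hmain 2 1 le_rfl one_pos
    rw [e2] at hc
    filter_upwards [hc, Pool.Agent.U53.PW.below hreg (1 / 8) (by norm_num) (by linarith [hl.1])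
      Pool.Agent.U53.PW.rate_a, Pool.Agent.U53.PW.above hreg (by linarith [hl.1]) (7 / 2) (by linarith [hl.2])
      Pool.Agent.U53.PW.rate_b] with ω k1 k2 k3
    refine ⟨?_, fun β h1 h2 => (k1 β).2 ⟨by linarith, rate_between β h1 h2⟩⟩
    filter_upwards [k2, k3] with n g1 g2
    rw [a_eq E ω 2 1 one_pos n]
    exact ⟨g1, g2⟩

end Pool.Agent.Results.MP_78b39f_nt.LimitPointsInRandomModels
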