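import Mathlib
import Pool.Agent.U215.Pw.Low
import Pool.Agent.U215.Pw.Dev
import Pool.Agent.U215.Pw.Mass
import Pool.Agent.U462.Gap.Fin

set_option autoImplicit false

/-!
# Random primes just above the powers of an integer

A random set `S` is built step by step, with arbitrary dependence; the conditional probability of `n + 1`,
given the first `n` steps, is asymptotic to `∏_{p ≤ T} (1 - 1/p)⁻¹ / log n`, `T = T(n + 1)`, if `n + 1` has no
prime factor up to `T(n + 1)`, and it is `0` otherwise (Cramér's model: `T = 1`). We take `T = (log n) ^ o(1)`.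
Let `b ≥ 2` and `κ > 0`, and let `a(n)` be the number of elements of `S` in `[b ^ n, b ^ n + κ p_n]`. The question
is whether `a(n) ≥ 1` for `b = 2`, `κ = 1`. Put `α = κ / log b` and `r(y) = 1 - y + y log y`.

* If `α > 1`: almost surely `y α log n ≤ a(n)` for all large `n`, for every `y < 1` with `α r(y) > 1` (such
  `y > 0` exist). So `κ = log b` is the threshold, and `1 > log 2`: almost surely `a(n) ≥ (log n) / 12` for all
  large `n` in the case `b = 2`, `κ = 1`.
* For every `α > 0`: almost surely `a(n) ≤ y α log n` for all large `n`, for every `y > 1` with `α r(y) > 1`.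
* If `α < 1`: almost surely the number of the `n < N` with `a(n) = 0` is `N ^ (1 - α + o(1))`. So for `κ = 1` the
  analogous assertion fails for all `b ≥ 3`.

Proof: exponential moments of the number of elements of a window, conditionally on the past (library
`U462`), the exponential bound for the number of successes in dependent trials, a weighted first moment, the
fundamental lemma of the sieve (library `H154R3`, through `U839.Sv.Count`) and `p_n ~ n log n`.
-/

open MeasureTheory Filter Topology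

namespace Pool.Agent.Results.MP_78b39f_nt.OrderInRandomModels

/-- the `n`-th prime: `p 1 = 2`, `p 2 = 3`, ... -/
noncomputable def p (n : ℕ) : ℕ := Nat.nth Nat.Prime (n - 1)

/-- the number of the elements of `S` in `[b ^ n, b ^ n + κ p_n]`; for the set of the primes, `b = 2` and `κ = 1`
this is the function `a` of the question -/
noncomputable def number (S : Set ℕ) (b : ℕ) (κ : ℝ) (n : ℕ) : ℕ :=
  {m : ℕ | m ∈ S ∧ b ^ n ≤ m ∧ (m : ℝ) ≤ b ^ n + κ * p n}.ncard

open Classical in
/-- the number of the `n < N` for which there are no such elements -/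
noncomputable def failures (S : Set ℕ) (b : ℕ) (κ : ℝ) (N : ℕ) : ℕ :=
  ((Finset.range N).filter (fun n => number S b κ n = 0)).card

/-- the rate function `1 - y + y log y` -/
noncomputable def rate (y : ℝ) : ℝ := 1 - y + y * Real.log y

/-- A sequential model with profile `a`: the set of the `n` with `ω ∈ A n` is adapted to the filtration, and
almost surely the conditional probability of `n + 1`, given the first `n` steps, is asymptotic to
`a (n + 1)` (in particular it is `0` for large `n` if `a (n + 1) = 0`). -/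
structure IsModel {Ω : Type} {m0 : MeasurableSpace Ω} (μ : Measure Ω) (ℱ : Filtration ℕ m0)
    (A : ℕ → Set Ω) (a : ℕ → ℝ) : Prop where
  adapted : ∀ n, MeasurableSet[ℱ n] (A n)
  law : ∀ᵐ ω ∂μ, ∀ ε : ℝ, 0 < ε → ∀ᶠ n : ℕ in atTop,
    |(μ[(A (n + 1)).indicator (fun _ => (1 : ℝ)) | ℱ n]) ω - a (n + 1)| ≤ ε * a (n + 1)

open Classical in
/-- the profile of the model with sieve limit `T`: `∏_{p ≤ T(n)} (1 - 1/p)⁻¹ / log n` if `n` has no prime
factor `p ≤ T(n)`, and `0` otherwise -/
noncomputable def sieveProfile (T : ℕ → ℕ) (n : ℕ) : ℝ :=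
  (if ∀ p, p.Prime → p ≤ T n → ¬ p ∣ n then
    ∏ p ∈ (Finset.Icc 1 (T n)).filter Nat.Prime, (1 - 1 / (p : ℝ))⁻¹ else 0) / Real.log n

theorem toModel {Ω : Type} {m0 : MeasurableSpace Ω} {μ : Measure Ω} {ℱ : Filtration ℕ m0}
    {A : ℕ → Set Ω} {a : ℕ → ℝ} (h : IsModel μ ℱ A a) : Pool.Agent.U462.Gap.Model μ ℱ A a :=
  ⟨h.adapted, h.law⟩

open Pool.Agent.U215.Pw (xx hhh)
open Pool.Agent.U462.Uni (ct)

/-- the windows -/
lemma window {b : ℕ} (hb : 2 ≤ b) {κ : ℝ} (hκ : 0 < κ) (n m : ℕ) :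
    (b ^ n ≤ m ∧ (m : ℝ) ≤ b ^ n + κ * p n) ↔ (xx b n < m ∧ m ≤ xx b n + hhh κ n) := by
  have h1 : 1 ≤ b ^ n := Nat.one_le_pow _ _ (by omega)
  have h2 : (m : ℝ) ≤ b ^ n + κ * p n ↔ m ≤ b ^ n + ⌊κ * (p n : ℝ)⌋₊ := by
    have e1 : (b : ℝ) ^ n + κ * p n = κ * p n + ((b ^ n : ℕ) : ℝ) := by push_cast; ring
    rw [e1, ← Nat.le_floor_iff (by positivity), Nat.floor_add_natCast (by positivity), add_comm]
  rw [h2]
  unfold xx hhh
  have h3 : Pool.Agent.U215.Pw.pr n = p n := rfl
  rw [h3]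
  omega

lemma ncard_eq {Ω : Type} (A : ℕ → Set Ω) (ω : Ω) (t j : ℕ) :
    (({m : ℕ | m ∈ {n | ω ∈ A n} ∧ t < m ∧ m ≤ t + j}.ncard : ℕ) : ℝ) = ct A t j ω := by
  classical
  have h1 : {m : ℕ | m ∈ {n | ω ∈ A n} ∧ t < m ∧ m ≤ t + j} =
      ((Finset.Ioc t (t + j)).filter (fun n => ω ∈ A n) : Finset ℕ) := by
    ext n
    simp only [Set.mem_ofPred_eq, Finset.coe_filter, Finset.mem_Ioc]
    tauto
  rw [h1, Set.ncard_coe_finset]
  unfold ct
  have h2 : ∀ r, (A (t + r + 1)).indicator (fun _ => (1 : ℝ)) ω = if ω ∈ A (t + r + 1) then 1 else 0 := by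
    intro r
    by_cases h : ω ∈ A (t + r + 1)
    · rw [Set.indicator_of_mem h, if_pos h]
    · rw [Set.indicator_of_notMem h, if_neg h]
  simp_rw [h2]
  rw [Finset.card_filter]
  push_cast
  have h3 : Finset.Ioc t (t + j) = (Finset.range j).image (fun r => t + r + 1) := by
    ext n
    simp only [Finset.mem_Ioc, Finset.mem_image, Finset.mem_range]
    constructor
    · rintro ⟨g1, g2⟩
      exact ⟨n - t - 1, by omega, by omega⟩
    · rintro ⟨r, g1, rfl⟩
      omega
  rw [h3, Finset.sum_image (fun a _ b _ hab => by simpa using hab)]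

lemma number_eq {Ω : Type} (A : ℕ → Set Ω) (ω : Ω) {b : ℕ} (hb : 2 ≤ b) {κ : ℝ} (hκ : 0 < κ) (n : ℕ) :
    (number {n | ω ∈ A n} b κ n : ℝ) = ct A (xx b n) (hhh κ n) ω := by
  rw [← ncard_eq]
  unfold number
  congr 3
  ext m
  simp only [Set.mem_ofPred_eq]
  rw [window hb hκ]

lemma failures_eq (S : Set ℕ) {b : ℕ} (hb : 2 ≤ b) {κ : ℝ} (hκ : 0 < κ) (N : ℕ) :
    failures S b κ N = Pool.Agent.U215.Pw.vds S (xx b) (hhh κ) N := by
  classical
  unfold failures Pool.Agent.U215.Pw.vds
  congr 1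
  apply Finset.filter_congr
  intro n _
  unfold number
  have e : {m : ℕ | m ∈ S ∧ b ^ n ≤ m ∧ (m : ℝ) ≤ b ^ n + κ * p n} =
      {m : ℕ | m ∈ S ∧ xx b n < m ∧ m ≤ xx b n + hhh κ n} := by
    ext m
    simp only [Set.mem_ofPred_eq]
    rw [window hb hκ]
  have hfin : {m : ℕ | m ∈ S ∧ xx b n < m ∧ m ≤ xx b n + hhh κ n}.Finite :=
    (Set.finite_Iic (xx b n + hhh κ n)).subset fun m hm => hm.2.2
  rw [e, Set.ncard_eq_zero hfin, Set.eq_empty_iff_forall_notMem]
  constructor
  · intro h m h1 h2 h3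
    exact h m ⟨h3, h1, h2⟩
  · rintro h m ⟨h1, h2, h3⟩
    exact h m h2 h3 h1

lemma exists_rate {α : ℝ} (hα : 1 < α) : ∃ y : ℝ, 0 < y ∧ y < 1 ∧ 1 < α * rate y := by
  have hc : Continuous rate := by
    unfold rate
    exact (continuous_const.sub continuous_id).add Real.continuous_mul_log
  have h0 : rate 0 = 1 := by unfold rate; simp
  have h1 : Tendsto (fun y => α * rate y) (𝓝[>] 0) (𝓝 (α * rate 0)) :=
    ((hc.const_mul α).tendsto 0).mono_left nhdsWithin_le_nhds
  rw [h0, mul_one] at h1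
  have h2 : ∀ᶠ y : ℝ in 𝓝[>] 0, 1 < α * rate y := h1.eventually (lt_mem_nhds hα)
  have h3 : ∀ᶠ y : ℝ in 𝓝[>] 0, y ∈ Set.Ioo (0 : ℝ) 1 := Ioo_mem_nhdsGT one_pos
  obtain ⟨y, h4, h5⟩ := (h2.and h3).exists
  exact ⟨y, h5.1, h5.2, h4⟩

/-- **(1)** Let `T` be nondecreasing, smaller than every power of `log n`, and consider any model with the
profile `sieveProfile T`, any `b ≥ 2` and `κ > 0`; `α = κ / log b`. (a) For `0 < y < 1` with `α rate(y) > 1`,
almost surely `number ≥ y α log n` for all large `n`. (b) For `y > 1` with `α rate(y) > 1`, almost surely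
`number ≤ y α log n` for all large `n`. (c) If `κ < log b`, then almost surely `failures = N ^ (1 - α + o(1))`.
(d) Almost surely for `b = 2` and `κ = 1` the number is at least `(log n) / 12` for all large `n`.
**(2)** If `κ > log b`, then there is a `y` as in (a); and `log b > 1` for `b ≥ 3`. **(3)** Independent events
with probabilities asymptotic to `a n` form a model with the profile `a`. -/
theorem result :
    (∀ (Ω : Type) (m0 : MeasurableSpace Ω) (μ : Measure Ω) (_ : IsProbabilityMeasure μ)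
      (ℱ : Filtration ℕ m0) (A : ℕ → Set Ω) (T : ℕ → ℕ), Monotone T →
      (∀ θ : ℝ, 0 < θ → ∀ᶠ n : ℕ in atTop, (T n : ℝ) ≤ (Real.log n) ^ θ) →
      IsModel μ ℱ A (sieveProfile T) →
      (∀ b : ℕ, 2 ≤ b → ∀ κ : ℝ, 0 < κ →
        (∀ y : ℝ, 0 < y → y < 1 → 1 < κ / Real.log b * rate y →
          ∀ᵐ ω ∂μ, ∀ᶠ n : ℕ in atTop, y * (κ / Real.log b) * Real.log n ≤ number {n | ω ∈ A n} b κ n) ∧
        (∀ y : ℝ, 1 < y → 1 < κ / Real.log b * rate y →
          ∀ᵐ ω ∂μ, ∀ᶠ n : ℕ in atTop, (number {n | ω ∈ A n} b κ n : ℝ) ≤ y * (κ / Real.log b) * Real.log n) ∧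
        (κ < Real.log b → ∀ᵐ ω ∂μ, ∀ ε : ℝ, 0 < ε → ∀ᶠ N : ℕ in atTop,
          (N : ℝ) ^ (1 - κ / Real.log b - ε) ≤ failures {n | ω ∈ A n} b κ N ∧
          (failures {n | ω ∈ A n} b κ N : ℝ) ≤ (N : ℝ) ^ (1 - κ / Real.log b + ε))) ∧
      (∀ᵐ ω ∂μ, ∀ᶠ n : ℕ in atTop, Real.log n / 12 ≤ number {n | ω ∈ A n} 2 1 n)) ∧
    ((∀ b : ℕ, 2 ≤ b → ∀ κ : ℝ, Real.log b < κ → ∃ y : ℝ, 0 < y ∧ y < 1 ∧ 1 < κ / Real.log b * rate y) ∧
      ∀ b : ℕ, 3 ≤ b → 1 < Real.log b) ∧
    (∀ (Ω : Type) (m0 : MeasurableSpace Ω) (μ : Measure Ω) (_ : IsProbabilityMeasure μ)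
      (A : ℕ → Set Ω) (hm : ∀ n, MeasurableSet (A n)) (a : ℕ → ℝ), ProbabilityTheory.iIndepSet A μ →
      (∀ ε : ℝ, 0 < ε → ∀ᶠ n : ℕ in atTop, |μ.real (A n) - a n| ≤ ε * a n) →
      IsModel μ (filtrationOfSet hm) A a) := by
  refine ⟨?_, ⟨?_, ?_⟩, ?_⟩
  · intro Ω m0 μ _ ℱ A T hT hTl hA
    have hM : Pool.Agent.U462.Gap.Model μ ℱ A (Pool.Agent.U462.Gap.aT T) := toModel hA
    have hTs : Pool.Agent.U462.Gap.Small T := by
      intro ε hε
      have h1 := (isLittleO_log_rpow_rpow_atTop 1 hε).bound one_pos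
      filter_upwards [hTl 1 one_pos, tendsto_natCast_atTop_atTop.eventually h1,
        Pool.Agent.U462.Gap.tlog.eventually_ge_atTop 0, eventually_ge_atTop 1] with n g1 g2 g3 g4
      have hn0 : (0 : ℝ) < n := by exact_mod_cast g4
      rw [one_mul, Real.norm_of_nonneg (by positivity), Real.norm_of_nonneg (by positivity)] at g2
      exact g1.trans g2
    have ha := Pool.Agent.U462.Gap.aT_nonneg T
    have ha0 := Pool.Agent.U462.Gap.aT_tendsto T hTs
    have hge : ∀ b : ℕ, 2 ≤ b → ∀ κ : ℝ, 0 < κ → ∀ y : ℝ, 0 < y → y < 1 → 1 < κ / Real.log b * rate y →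
          ∀ᵐ ω ∂μ, ∀ᶠ n : ℕ in atTop, y * (κ / Real.log b) * Real.log n ≤ number {n | ω ∈ A n} b κ n := by
      intro b hb κ hκ y hy hy1 hr
      have hbr : (2 : ℝ) ≤ b := by exact_mod_cast hb
      have hℓ0 : 0 < Real.log b := Real.log_pos (by linarith)
      filter_upwards [Pool.Agent.U215.Pw.count_ge hM ha ha0 (xx b) (hhh κ) (Pool.Agent.U215.Pw.xx_ge hb)
        (show 0 < κ / Real.log b by positivity)
        (fun η hη => (Pool.Agent.U215.Pw.mass_tendsto hT hTl hb hκ hη).mono fun n hn => hn.1) hy hy1 hr] with ω hω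
      filter_upwards [hω] with n hn
      rw [number_eq A ω hb hκ]
      exact hn
    refine ⟨fun b hb κ hκ => ⟨hge b hb κ hκ, ?_, ?_⟩, ?_⟩
    · intro y hy1 hr
      have hbr : (2 : ℝ) ≤ b := by exact_mod_cast hb
      have hℓ0 : 0 < Real.log b := Real.log_pos (by linarith)
      filter_upwards [Pool.Agent.U215.Pw.count_le hM ha (xx b) (hhh κ) (Pool.Agent.U215.Pw.xx_ge hb)
        (show 0 < κ / Real.log b by positivity)
        (fun η hη => (Pool.Agent.U215.Pw.mass_tendsto hT hTl hb hκ hη).mono fun n hn => hn.2) hy1 hr] with ω hω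
      filter_upwards [hω] with n hn
      rw [number_eq A ω hb hκ]
      exact hn
    · intro hκb
      have hbr : (2 : ℝ) ≤ b := by exact_mod_cast hb
      have hℓ0 : 0 < Real.log b := Real.log_pos (by linarith)
      obtain ⟨α, hα⟩ : ∃ α, α = κ / Real.log b := ⟨_, rfl⟩
      have hα0 : 0 < α := by rw [hα]; positivity
      have hα1 : α < 1 := by rw [hα, div_lt_one hℓ0]; exact hκb
      rw [← hα]
      have h1 : ∀ k : ℕ, ∀ᵐ ω ∂μ, ∀ᶠ N : ℕ in atTop,
          (N : ℝ) ^ (1 - α - 1 / ((k : ℝ) + 1)) ≤ failures {n | ω ∈ A n} b κ N ∧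
          (failures {n | ω ∈ A n} b κ N : ℝ) ≤ (N : ℝ) ^ (1 - α + 1 / ((k : ℝ) + 1)) := by
        intro k
        obtain ⟨e, he⟩ : ∃ e, e = 1 / ((k : ℝ) + 1) := ⟨_, rfl⟩
        have he0 : 0 < e := by rw [he]; positivity
        rw [← he]
        obtain ⟨η, hη, hη1, hη2, hη3⟩ : ∃ η : ℝ, 0 < η ∧ η ≤ e / 2 ∧ η ≤ α ∧ η < 1 - α := by
          refine ⟨min (min (e / 2) α) ((1 - α) / 2), lt_min (lt_min (by positivity) hα0) (by linarith),
            (min_le_left _ _).trans (min_le_left _ _), (min_le_left _ _).trans (min_le_right _ _), ?_⟩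
          have := min_le_right (min (e / 2) α) ((1 - α) / 2)
          linarith
        have hmm := Pool.Agent.U215.Pw.mass_tendsto hT hTl hb hκ hη
        rw [← hα] at hmm
        filter_upwards [Pool.Agent.U215.Pw.vds_low hM ha ha0 (xx b) (hhh κ) (Pool.Agent.U215.Pw.xx_ge hb)
            (Pool.Agent.U215.Pw.xx_mono hb) (Pool.Agent.U215.Pw.xx_disj hb hκ) (show 0 ≤ α + η by linarith)
            (by linarith) (hmm.mono fun n hn => hn.2) (show 0 < e / 2 by positivity),
          Pool.Agent.U215.Pw.vds_up hM ha ha0 (xx b) (hhh κ) (Pool.Agent.U215.Pw.xx_ge hb)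
            (show 0 ≤ α - η by linarith) (by linarith) (hmm.mono fun n hn => hn.1)
            (show 0 < e / 2 by positivity)] with ω g1 g2
        filter_upwards [g1, g2, eventually_ge_atTop 1] with N h1 h2 h3
        have hN1 : (1 : ℝ) ≤ N := by exact_mod_cast h3
        rw [failures_eq _ hb hκ]
        constructor
        · refine le_trans (Real.rpow_le_rpow_of_exponent_le hN1 ?_) h1
          linarith
        · refine h2.trans (Real.rpow_le_rpow_of_exponent_le hN1 ?_)
          linarith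
      rw [← ae_all_iff] at h1
      filter_upwards [h1] with ω hω ε hε
      obtain ⟨k, hk⟩ := exists_nat_one_div_lt hε
      filter_upwards [hω k, eventually_ge_atTop 1] with N h2 h3
      have hN1 : (1 : ℝ) ≤ N := by exact_mod_cast h3
      exact ⟨(Real.rpow_le_rpow_of_exponent_le hN1 (by linarith)).trans h2.1,
        h2.2.trans (Real.rpow_le_rpow_of_exponent_le hN1 (by linarith))⟩
    · have hl2 : 0 < Real.log 2 := Real.log_pos (by norm_num)
      have hl2' := Real.log_two_lt_d9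
      have hrate : rate (1 / 16) = 15 / 16 - Real.log 2 / 4 := by
        unfold rate
        have e : Real.log (1 / 16) = -(4 * Real.log 2) := by
          rw [one_div, Real.log_inv]
          have : (16 : ℝ) = 2 ^ 4 := by norm_num
          rw [this, Real.log_pow]
          push_cast
          ring
        rw [e]
        ring
      have h1 := hge 2 le_rfl 1 one_pos (1 / 16) (by norm_num) (by norm_num) (by
        rw [hrate]
        push_cast
        rw [div_mul_eq_mul_div, one_mul, lt_div_iff₀ hl2]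
        linarith)
      filter_upwards [h1] with ω hω
      filter_upwards [hω, eventually_ge_atTop 1] with n h2 h3
      refine le_trans ?_ h2
      have hn1 : (1 : ℝ) ≤ n := by exact_mod_cast h3
      have hl := Real.log_nonneg hn1
      push_cast
      have e : (1 : ℝ) / 12 ≤ 1 / 16 * (1 / Real.log 2) := by
        have e1 : (1 : ℝ) / 16 * (1 / Real.log 2) = 1 / (16 * Real.log 2) := by
          field_simp
        rw [e1]
        apply one_div_le_one_div_of_le (by positivity)
        linarith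
      calc Real.log n / 12 = 1 / 12 * Real.log n := by ring
        _ ≤ _ := mul_le_mul_of_nonneg_right e hl
  · intro b hb κ hκ
    have hbr : (2 : ℝ) ≤ b := by exact_mod_cast hb
    have hℓ0 : 0 < Real.log b := Real.log_pos (by linarith)
    exact exists_rate (by rw [lt_div_iff₀ hℓ0, one_mul]; exact hκ)
  · intro b hb
    have hbr : (3 : ℝ) ≤ b := by exact_mod_cast hb
    rw [Real.lt_log_iff_exp_lt (by linarith)]
    have := Real.exp_one_lt_d9
    linarith
  · intro Ω m0 μ _ A hm a hi hp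
    have h := Pool.Agent.U462.Gap.indep_model hm hi hp
    exact ⟨h.adapted, h.law⟩

end Pool.Agent.Results.MP_78b39f_nt.OrderInRandomModels
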