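import Mathlib
import Pool.Agent.U158.RW.Fin

set_option autoImplicit false

/-!
# Primes behind the powers `b ^ n`, in every sequential random model of the primes

The question is whether `[2 ^ n, 2 ^ n + p_n]` contains a prime for every `n ≥ 1`. A random set `S` is built step by
step, with arbitrary dependence; the conditional probability of `n + 1`, given the first `n` steps, is asymptotic to
`∏_{q ≤ T} (1 - 1/q)⁻¹ / log n`, `T = T(n + 1)`, if `n + 1` has no prime factor up to `T(n + 1)`, and it is `0`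
otherwise (Cramér's model: `T = 1`). The nondecreasing function `T` is smaller than every power of `log n`. With `S`
in the place of the primes we find the exact threshold for the windows behind the terms of any sequence,
`C log x_n log n` with `C = 1`, with the exact power law of the number of the empty windows, and the following answer
to the question: almost surely the assertion is true for all large `n`, but for every base `b ≥ 3` in the place of `2`
it is false for `N ^ (1 - 1 / log b + o(1))` of the `n ≤ N`.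
-/

open MeasureTheory Filter Topology

namespace Pool.Agent.Results.MP_78b39f_nt.ThresholdAfterPowers

/-- A sequential model with profile `a`: the set of the `n` with `ω ∈ A n` is adapted to the filtration, and
almost surely the conditional probability of `n + 1`, given the first `n` steps, is asymptotic to
`a (n + 1)` (in particular it is `0` for large `n` if `a (n + 1) = 0`). -/
structure IsModel {Ω : Type} {m0 : MeasurableSpace Ω} (μ : Measure Ω) (ℱ : Filtration ℕ m0)
    (A : ℕ → Set Ω) (a : ℕ → ℝ) : Prop where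
  adapted : ∀ n, MeasurableSet[ℱ n] (A n)
  law : ∀ᵐ ω ∂μ, ∀ ε : ℝ, 0 < ε → ∀ᶠ n : ℕ in atTop,
    |(μ[(A (n + 1)).indicator (fun _ => (1 : ℝ)) | ℱ n]) ω - a (n + 1)| ≤ ε * a (n + 1)

open Classical in
/-- the profile of the model with sieve limit `T`: `∏_{p ≤ T(n)} (1 - 1/p)⁻¹ / log n` if `n` has no prime
factor `p ≤ T(n)`, and `0` otherwise -/
noncomputable def sieveProfile (T : ℕ → ℕ) (n : ℕ) : ℝ :=
  (if ∀ p, p.Prime → p ≤ T n → ¬ p ∣ n then
    ∏ p ∈ (Finset.Icc 1 (T n)).filter Nat.Prime, (1 - 1 / (p : ℝ))⁻¹ else 0) / Real.log n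

/-- `T` is smaller than every power of `log n` -/
def Tiny (T : ℕ → ℕ) : Prop := ∀ κ : ℝ, 0 < κ → ∀ᶠ n : ℕ in atTop, (T n : ℝ) ≤ Real.log n ^ κ

/-- the `n`-th prime, `p 1 = 2` -/
noncomputable def p (n : ℕ) : ℕ := Nat.nth Nat.Prime (n - 1)

/-- the window `(x, x + h]` contains no element of `S` -/
def Void (S : Set ℕ) (x h : ℕ) : Prop := ∀ m, x < m → m ≤ x + h → m ∉ S

open Classical in
/-- the number of the `n` with `2 ^ i ≤ n < 2 ^ (i + 1)` for which the window `(x n, x n + h n]` is void -/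
noncomputable def voids (S : Set ℕ) (x h : ℕ → ℕ) (i : ℕ) : ℕ :=
  ((Finset.Ico (2 ^ i) (2 ^ (i + 1))).filter fun n => Void S (x n) (h n)).card

theorem toModel {Ω : Type} {m0 : MeasurableSpace Ω} {μ : Measure Ω} {ℱ : Filtration ℕ m0}
    {A : ℕ → Set Ω} {a : ℕ → ℝ} (h : IsModel μ ℱ A a) : Pool.Agent.U462.Gap.Model μ ℱ A a :=
  ⟨h.adapted, h.law⟩

/-- **(1)** Let `x` and `h` be sequences of natural numbers with `n ≤ x n` for large `n` and
`h n = (c + o(1)) log (x n) log n`, `c > 0`. In every model of the set `S` with a profile `sieveProfile T`, `T`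
nondecreasing and `Tiny`, almost surely: if `c > 1`, the window `(x n, x n + h n]` contains an element of `S` for all
large `n`; if `c < 1` and the windows of large index are disjoint and in order, then for all `ε > 0` and all large
`i` the number of the `n` in `[2 ^ i, 2 ^ (i + 1))` with a void window is between `2 ^ ((1 - c - ε) i)` and
`2 ^ ((1 - c + ε) i)`.
**(2)** For all these models almost surely: (a) for all large `n` there is an element of `S` in
`[2 ^ n, 2 ^ n + p n]`; (b) for all `b ≥ 3` and `ε > 0` and all large `i` the number of the `n` in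
`[2 ^ i, 2 ^ (i + 1))` for which `[b ^ n, b ^ n + p n]` contains no element of `S` is between
`2 ^ ((1 - 1 / log b - ε) i)` and `2 ^ ((1 - 1 / log b + ε) i)`; (c) for all `b ≥ 2` and all real `C`: if `C > log b`,
there is an element of `S` in `(b ^ n, b ^ n + C n log n]` for all large `n`, and if `C < log b`, there is none for
infinitely many `n`.
**(3)** Independent events with probabilities asymptotic to `a n` form a model with the profile `a`. -/
theorem result :
    (∀ (Ω : Type) (m0 : MeasurableSpace Ω) (μ : Measure Ω) (_ : IsProbabilityMeasure μ)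
      (ℱ : Filtration ℕ m0) (A : ℕ → Set Ω) (T : ℕ → ℕ), Monotone T → Tiny T →
      IsModel μ ℱ A (sieveProfile T) →
      (∀ (x h : ℕ → ℕ) (c : ℝ), 0 < c → (∀ᶠ n : ℕ in atTop, n ≤ x n) →
        (∀ η : ℝ, 0 < η → ∀ᶠ n : ℕ in atTop, (c - η) * (Real.log (x n) * Real.log n) ≤ h n ∧
          (h n : ℝ) ≤ (c + η) * (Real.log (x n) * Real.log n)) →
        (1 < c → ∀ᵐ ω ∂μ, ∀ᶠ n : ℕ in atTop, ¬ Void {m | ω ∈ A m} (x n) (h n)) ∧
        (c < 1 → (∀ᶠ n : ℕ in atTop, x n + h n ≤ x (n + 1)) → ∀ᵐ ω ∂μ, ∀ ε : ℝ, 0 < ε →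
          ∀ᶠ i : ℕ in atTop, (2 : ℝ) ^ ((1 - c - ε) * i) ≤ voids {m | ω ∈ A m} x h i ∧
            (voids {m | ω ∈ A m} x h i : ℝ) ≤ (2 : ℝ) ^ ((1 - c + ε) * i))) ∧
      (∀ᵐ ω ∂μ,
        (∀ᶠ n : ℕ in atTop, ∃ m, 2 ^ n ≤ m ∧ m ≤ 2 ^ n + p n ∧ ω ∈ A m) ∧
        (∀ b : ℕ, 3 ≤ b → ∀ ε : ℝ, 0 < ε → ∀ᶠ i : ℕ in atTop,
          (2 : ℝ) ^ ((1 - 1 / Real.log b - ε) * i) ≤
            voids {m | ω ∈ A m} (fun n => b ^ n - 1) (fun n => p n + 1) i ∧
          (voids {m | ω ∈ A m} (fun n => b ^ n - 1) (fun n => p n + 1) i : ℝ) ≤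
            (2 : ℝ) ^ ((1 - 1 / Real.log b + ε) * i)) ∧
        (∀ b : ℕ, 2 ≤ b → ∀ C : ℝ,
          (Real.log b < C → ∀ᶠ n : ℕ in atTop,
            ∃ m : ℕ, b ^ n < m ∧ (m : ℝ) ≤ (b : ℝ) ^ n + C * (n * Real.log n) ∧ ω ∈ A m) ∧
          (C < Real.log b → ∃ᶠ n : ℕ in atTop,
            ∀ m : ℕ, b ^ n < m → (m : ℝ) ≤ (b : ℝ) ^ n + C * (n * Real.log n) → ω ∉ A m)))) ∧
    (∀ (Ω : Type) (m0 : MeasurableSpace Ω) (μ : Measure Ω) (_ : IsProbabilityMeasure μ)
      (A : ℕ → Set Ω) (hm : ∀ n, MeasurableSet (A n)) (a : ℕ → ℝ), ProbabilityTheory.iIndepSet A μ →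
      (∀ ε : ℝ, 0 < ε → ∀ᶠ n : ℕ in atTop, |μ.real (A n) - a n| ≤ ε * a n) →
      IsModel μ (filtrationOfSet hm) A a) := by
  classical
  refine ⟨?_, ?_⟩
  · intro Ω m0 μ iμ ℱ A T hT hTt hA
    have hM : Pool.Agent.U462.Gap.Model μ ℱ A (Pool.Agent.U462.Gap.aT T) := toModel hA
    have ha : ∀ n, 0 ≤ Pool.Agent.U462.Gap.aT T n := Pool.Agent.U462.Gap.aT_nonneg T
    have hTs : Pool.Agent.U462.Gap.Small T := by
      intro δ hδ
      have h1 := (isLittleO_log_rpow_atTop hδ).def (show (0 : ℝ) < 1 by norm_num)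
      filter_upwards [hTt 1 one_pos, tendsto_natCast_atTop_atTop.eventually h1] with n h2 h3
      rw [Real.rpow_one] at h2
      rw [Real.norm_of_nonneg (Real.log_natCast_nonneg n), Real.norm_of_nonneg (by positivity), one_mul] at h3
      exact h2.trans h3
    have ha0 := Pool.Agent.U462.Gap.aT_tendsto T hTs
    have part1 : ∀ (x h : ℕ → ℕ) (c : ℝ), 0 < c → (∀ᶠ n : ℕ in atTop, n ≤ x n) →
        Pool.Agent.U158.RW.HW x h c →
        (1 < c → ∀ᵐ ω ∂μ, ∀ᶠ n : ℕ in atTop, ¬ Void {m | ω ∈ A m} (x n) (h n)) ∧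
        (c < 1 → (∀ᶠ n : ℕ in atTop, x n + h n ≤ x (n + 1)) → ∀ᵐ ω ∂μ, ∀ ε : ℝ, 0 < ε →
          ∀ᶠ i : ℕ in atTop, (2 : ℝ) ^ ((1 - c - ε) * i) ≤ voids {m | ω ∈ A m} x h i ∧
            (voids {m | ω ∈ A m} x h i : ℝ) ≤ (2 : ℝ) ^ ((1 - c + ε) * i)) := by
      intro x h c hc hx hW
      have hxt : Tendsto x atTop atTop := tendsto_atTop_mono' _ hx tendsto_id
      have hMs := Pool.Agent.U158.RW.mass hT hTt hx hc hW
      exact ⟨fun h1 => Pool.Agent.U158.RW.hits hM ha ha0 hxt h1 hMs,
        fun h1 h2 => Pool.Agent.U158.RW.counts_all hM ha ha0 hxt h2 hc h1 hMs⟩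
    refine ⟨part1, ?_⟩
    -- (a)
    have hA2 : ∀ᵐ ω ∂μ, ∀ᶠ n : ℕ in atTop, ∃ m, 2 ^ n ≤ m ∧ m ≤ 2 ^ n + p n ∧ ω ∈ A m := by
      have h2 : (1 : ℝ) < 1 / Real.log (2 : ℕ) := by
        have h3 := Pool.Agent.U158.RW.log_b_pos (b := 2) le_rfl
        rw [lt_div_iff₀ h3, one_mul]
        have := Real.log_two_lt_d9
        push_cast
        linarith
      have h3 := (part1 (fun n => 2 ^ n - 1) (fun n => p n + 1) (1 / Real.log (2 : ℕ))
        (by linarith) (Eventually.of_forall fun n => Pool.Agent.U158.RW.le_pow_pred le_rfl n)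
        (Pool.Agent.U158.RW.HW_pn le_rfl)).1 h2
      filter_upwards [h3] with ω hω
      filter_upwards [hω] with n hn
      by_contra hcon
      push Not at hcon
      refine hn fun m h4 h5 h6 => ?_
      have h7 : 0 < 2 ^ n := Nat.pos_of_ne_zero (by positivity)
      exact hcon m (by omega) (by omega) h6
    -- (b)
    have hB : ∀ᵐ ω ∂μ, ∀ b : ℕ, 3 ≤ b → ∀ ε : ℝ, 0 < ε → ∀ᶠ i : ℕ in atTop,
        (2 : ℝ) ^ ((1 - 1 / Real.log b - ε) * i) ≤
          voids {m | ω ∈ A m} (fun n => b ^ n - 1) (fun n => p n + 1) i ∧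
        (voids {m | ω ∈ A m} (fun n => b ^ n - 1) (fun n => p n + 1) i : ℝ) ≤
          (2 : ℝ) ^ ((1 - 1 / Real.log b + ε) * i) := by
      rw [ae_all_iff]
      intro b
      by_cases hb : 3 ≤ b
      · have h1 : 1 < Real.log b := by
          have h2 : Real.exp 1 < b := by
            have := Real.exp_one_lt_d9
            have h3 : (3 : ℝ) ≤ b := by exact_mod_cast hb
            linarith
          rw [Real.lt_log_iff_exp_lt (by have := Real.exp_pos 1; linarith)]
          exact h2
        have h2 : 1 / Real.log b < 1 := by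
          rw [div_lt_one (by linarith)]
          exact h1
        have h3 := (part1 (fun n => b ^ n - 1) (fun n => p n + 1) (1 / Real.log b)
          (by positivity) (Eventually.of_forall fun n => Pool.Agent.U158.RW.le_pow_pred (by omega) n)
          (Pool.Agent.U158.RW.HW_pn (by omega))).2 h2 (Pool.Agent.U158.RW.disj_pn (by omega))
        filter_upwards [h3] with ω hω _
        exact hω
      · exact Eventually.of_forall fun ω h => absurd h hb
    -- (c), rational parameters
    have hC1 : ∀ᵐ ω ∂μ, ∀ (b : ℕ) (q : ℚ), 2 ≤ b → Real.log b < q → ∀ᶠ n : ℕ in atTop,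
        ¬ Void {m | ω ∈ A m} (b ^ n) ⌊(q : ℝ) * (n * Real.log n)⌋₊ := by
      rw [ae_all_iff]
      intro b
      rw [ae_all_iff]
      intro q
      by_cases hb : 2 ≤ b
      · by_cases hq : Real.log b < q
        · have hb0 := Pool.Agent.U158.RW.log_b_pos hb
          have h3 := (part1 (fun n => b ^ n) (fun n => ⌊(q : ℝ) * (n * Real.log n)⌋₊) (q / Real.log b)
            (by apply div_pos <;> linarith)
            (Eventually.of_forall fun n => (Pool.Agent.U158.RW.le_pow_pred hb n).trans (Nat.sub_le _ _))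
            (Pool.Agent.U158.RW.HW_pow hb (by linarith))).1 (by rwa [lt_div_iff₀ hb0, one_mul])
          filter_upwards [h3] with ω hω _ _
          exact hω
        · exact Eventually.of_forall fun ω _ h => absurd h hq
      · exact Eventually.of_forall fun ω h => absurd h hb
    have hC2 : ∀ᵐ ω ∂μ, ∀ (b : ℕ) (q : ℚ), 2 ≤ b → 0 < (q : ℝ) → q < Real.log b → ∃ᶠ n : ℕ in atTop,
        Void {m | ω ∈ A m} (b ^ n) ⌊(q : ℝ) * (n * Real.log n)⌋₊ := by
      rw [ae_all_iff]
      intro b
      rw [ae_all_iff]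
      intro q
      by_cases hb : 2 ≤ b
      · by_cases hq0 : 0 < (q : ℝ)
        · by_cases hq : q < Real.log b
          · have hb0 := Pool.Agent.U158.RW.log_b_pos hb
            have hc1 : (q : ℝ) / Real.log b < 1 := by rwa [div_lt_one hb0]
            have h3 := (part1 (fun n => b ^ n) (fun n => ⌊(q : ℝ) * (n * Real.log n)⌋₊) (q / Real.log b)
              (by positivity)
              (Eventually.of_forall fun n => (Pool.Agent.U158.RW.le_pow_pred hb n).trans (Nat.sub_le _ _))
              (Pool.Agent.U158.RW.HW_pow hb hq0)).2 hc1 (Pool.Agent.U158.RW.disj_pow hb hq.le)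
            filter_upwards [h3] with ω hω _ _ _
            rw [frequently_atTop]
            intro N
            obtain ⟨i, hi1, hi2⟩ := ((hω ((1 - q / Real.log b) / 2) (by linarith)).and
              (eventually_ge_atTop N)).exists
            have h4 : (0 : ℝ) < voids {m | ω ∈ A m} (fun n => b ^ n)
                (fun n => ⌊(q : ℝ) * (n * Real.log n)⌋₊) i := lt_of_lt_of_le (by positivity) hi1.1
            have h5 : 0 < voids {m | ω ∈ A m} (fun n => b ^ n)
                (fun n => ⌊(q : ℝ) * (n * Real.log n)⌋₊) i := by exact_mod_cast h4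
            unfold voids at h5
            obtain ⟨n, hn⟩ := Finset.card_pos.1 h5
            rw [Finset.mem_filter, Finset.mem_Ico] at hn
            refine ⟨n, ?_, hn.2⟩
            have := Nat.lt_two_pow_self (n := i)
            omega
          · exact Eventually.of_forall fun ω _ _ h => absurd h hq
        · exact Eventually.of_forall fun ω _ h => absurd h hq0
      · exact Eventually.of_forall fun ω h => absurd h hb
    filter_upwards [hA2, hB, hC1, hC2] with ω h1 h2 h3 h4
    refine ⟨h1, h2, fun b hb C => ⟨fun hC => ?_, fun hC => ?_⟩⟩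
    · obtain ⟨q, hq1, hq2⟩ := exists_rat_btwn hC
      filter_upwards [h3 b q hb hq1] with n hn
      by_contra hcon
      push Not at hcon
      refine hn fun m h5 h6 h7 => ?_
      have h8 : (0 : ℝ) ≤ n * Real.log n := mul_nonneg (Nat.cast_nonneg n) (Real.log_natCast_nonneg n)
      have hb0 := Pool.Agent.U158.RW.log_b_pos hb
      refine hcon m h5 ?_ h7
      have h9 : (m : ℝ) ≤ ((b ^ n + ⌊(q : ℝ) * (n * Real.log n)⌋₊ : ℕ) : ℝ) := by exact_mod_cast h6
      push_cast at h9
      have h10 := Nat.floor_le (mul_nonneg (show (0 : ℝ) ≤ q by linarith) h8)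
      have h11 : (q : ℝ) * (n * Real.log n) ≤ C * (n * Real.log n) := mul_le_mul_of_nonneg_right hq2.le h8
      linarith
    · have hb0 := Pool.Agent.U158.RW.log_b_pos hb
      obtain ⟨q, hq1, hq2⟩ := exists_rat_btwn (show max C 0 < Real.log b from max_lt hC hb0)
      have hq0 : (0 : ℝ) < q := lt_of_le_of_lt (le_max_right _ _) hq1
      have hqC : C < q := lt_of_le_of_lt (le_max_left _ _) hq1
      refine (h4 b q hb hq0 hq2).mono fun n hn m h5 h6 => hn m h5 ?_
      have h8 : (0 : ℝ) ≤ n * Real.log n := mul_nonneg (Nat.cast_nonneg n) (Real.log_natCast_nonneg n)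
      have h7 : ((m - b ^ n : ℕ) : ℝ) ≤ (q : ℝ) * (n * Real.log n) := by
        rw [Nat.cast_sub h5.le]
        push_cast
        have h11 : C * (n * Real.log n) ≤ (q : ℝ) * (n * Real.log n) := mul_le_mul_of_nonneg_right hqC.le h8
        linarith
      have h9 := Nat.le_floor h7
      omega
  · intro Ω m0 μ iμ A hm a hi hp
    have h := Pool.Agent.U462.Gap.indep_model hm hi hp
    exact ⟨h.adapted, h.law⟩

end Pool.Agent.Results.MP_78b39f_nt.ThresholdAfterPowers
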